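import Mathlib

/-! A gliding hump lemma: a space whose `p`-norm is a sum of compact `p`-seminorms has the
Schur `p`-property. -/

set_option autoImplicit false

open Finset Filter Topology

namespace Pool.Agent.Lib.MP_86e52e_an

variable {𝕜 X : Type*} [RCLike 𝕜] [AddCommGroup X] [Module 𝕜 X]

/-- A family of `p`-seminorms with sum `n`, each of them compact on the balls of `n`. -/
structure Fam (𝕜 : Type*) {X : Type*} [RCLike 𝕜] [AddCommGroup X] [Module 𝕜 X] (p : ℝ)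
    (E : ℕ → X → ℝ) (n : X → ℝ) : Prop where
  nonneg : ∀ k x, 0 ≤ E k x
  add : ∀ k x y, E k (x + y) ≤ E k x + E k y
  smul : ∀ k (c : 𝕜) x, E k (c • x) = ‖c‖ ^ p * E k x
  zero : ∀ k, E k 0 = 0
  hasSum : ∀ x, HasSum (fun k => E k x) (n x)
  tb : ∀ k (M ε : ℝ), 0 < ε → ∃ T : Set X, T.Finite ∧ ∀ x, n x ≤ M → ∃ t ∈ T, E k (x - t) ≤ ε

namespace Fam

variable {p : ℝ} {E : ℕ → X → ℝ} {n : X → ℝ}

theorem neg (h : Fam 𝕜 p E n) (k : ℕ) (x : X) : E k (-x) = E k x := by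
  have := h.smul k (-1) x
  simpa using this

theorem sub (h : Fam 𝕜 p E n) (k : ℕ) (x y : X) : E k (x - y) ≤ E k x + E k y := by
  rw [sub_eq_add_neg, ← h.neg k y]
  exact h.add k x (-y)

theorem sum_le (h : Fam 𝕜 p E n) (k : ℕ) {ι : Type*} (F : Finset ι) (x : ι → X) :
    E k (∑ i ∈ F, x i) ≤ ∑ i ∈ F, E k (x i) :=
  Finset.le_sum_of_subadditive (E k) (h.zero k).le (h.add k) F x

theorem block_le (h : Fam 𝕜 p E n) (B : Finset ℕ) (x : X) : ∑ k ∈ B, E k x ≤ n x :=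
  sum_le_hasSum B (fun k _ => h.nonneg k x) (h.hasSum x)

theorem n_nonneg (h : Fam 𝕜 p E n) (x : X) : 0 ≤ n x := by
  simpa using h.block_le ∅ x

theorem n_sum_le (h : Fam 𝕜 p E n) {ι : Type*} (F : Finset ι) (a : ι → 𝕜) (x : ι → X) :
    n (∑ i ∈ F, a i • x i) ≤ ∑ i ∈ F, ‖a i‖ ^ p * n (x i) := by
  refine hasSum_le (fun k => ?_) (h.hasSum _)
    (hasSum_sum fun i (_ : i ∈ F) => (h.hasSum (x i)).mul_left (‖a i‖ ^ p))
  refine (h.sum_le k F _).trans (le_of_eq (sum_congr rfl fun i _ => h.smul k _ _))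

theorem tail_hasSum (h : Fam 𝕜 p E n) (K : ℕ) (x : X) :
    HasSum (fun k => E (k + K) x) (n x - ∑ k ∈ range K, E k x) :=
  (hasSum_nat_add_iff' K).mpr (h.hasSum x)

theorem tail_sub (h : Fam 𝕜 p E n) (K : ℕ) (x y : X) :
    n (x - y) - ∑ k ∈ range K, E k (x - y)
      ≤ (n x - ∑ k ∈ range K, E k x) + (n y - ∑ k ∈ range K, E k y) :=
  hasSum_le (fun k => h.sub (k + K) x y) (h.tail_hasSum K _)
    ((h.tail_hasSum K x).add (h.tail_hasSum K y))

theorem tail_small (h : Fam 𝕜 p E n) (x : X) (η : ℝ) (hη : 0 < η) (K : ℕ) :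
    ∃ K', K < K' ∧ n x - ∑ k ∈ range K', E k x ≤ η := by
  have h1 := (h.hasSum x).tendsto_sum_nat
  have h2 : ∀ᶠ K' in atTop, n x - η < ∑ k ∈ range K', E k x :=
    h1.eventually (lt_mem_nhds (by linarith))
  obtain ⟨K', hK1, hK2⟩ := (h2.and (eventually_gt_atTop K)).exists
  exact ⟨K', hK2, by linarith⟩

/-- One step of the gliding hump. -/
theorem step (h : Fam 𝕜 p E n) (A : Set X) (hA : A.Infinite) (M δ : ℝ) (hδ : 0 < δ)
    (hM : ∀ x ∈ A, n x ≤ M) (hsep : ∀ x ∈ A, ∀ y ∈ A, x ≠ y → δ ≤ n (x - y)) (η : ℝ)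
    (hη : 0 < η) :
    ∃ K₀ : ℕ, ∀ K : ℕ, ∃ x ∈ A, ∃ K', K < K' ∧ ∑ k ∈ Ico K₀ K, E k x ≤ 2 * η ∧
      δ / 4 ≤ n x - ∑ k ∈ range K, E k x ∧ n x - ∑ k ∈ range K', E k x ≤ η := by
  classical
  have hne : (cofinite ⊓ 𝓟 A).NeBot := hA.cofinite_inf_principal_neBot
  obtain ⟨U, hU⟩ := Ultrafilter.exists_le (cofinite ⊓ 𝓟 A)
  have hUA : A ∈ U := (hU.trans inf_le_right) (mem_principal_self A)
  have hUc : (U : Filter X) ≤ cofinite := hU.trans inf_le_left
  have htwo : ∀ G : Set X, G ∈ U → ∃ x ∈ G, ∃ y ∈ G, x ≠ y := by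
    intro G hG
    obtain ⟨x, hx⟩ := U.nonempty_of_mem hG
    have h1 : ({x}ᶜ : Set X) ∈ U := hUc (Set.finite_singleton x).compl_mem_cofinite
    obtain ⟨y, hy1, hy2⟩ := U.nonempty_of_mem (inter_mem hG h1)
    exact ⟨x, hx, y, hy1, fun hxy => hy2 hxy.symm⟩
  -- limits of the seminorms along the ultrafilter
  have hlim : ∀ k, ∃ e : ℝ, Tendsto (E k) U (𝓝 e) := by
    intro k
    have h1 : (U.map (E k) : Filter ℝ) ≤ 𝓟 (Set.Icc 0 M) := by
      rw [le_principal_iff]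
      refine mem_map.mpr (mem_of_superset hUA ?_)
      intro x hx
      refine ⟨h.nonneg k x, ?_⟩
      have := h.block_le {k} x
      rw [sum_singleton] at this
      exact this.trans (hM x hx)
    obtain ⟨e, _, he⟩ := isCompact_Icc.ultrafilter_le_nhds (U.map (E k)) h1
    exact ⟨e, he⟩
  choose e he using hlim
  have he0 : ∀ k, 0 ≤ e k := fun k => ge_of_tendsto' (he k) (h.nonneg k)
  have heM : ∀ B : Finset ℕ, ∑ k ∈ B, e k ≤ M := by
    intro B
    refine le_of_tendsto (tendsto_finsetSum B fun k _ => he k) ?_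
    filter_upwards [hUA] with x hx using (h.block_le B x).trans (hM x hx)
  have hes : Summable e := summable_of_sum_le he0 heM
  obtain ⟨K₀, hK₀⟩ : ∃ K₀ : ℕ, ∀ K, ∑ k ∈ Ico K₀ K, e k ≤ η := by
    have h1 := hes.hasSum.tendsto_sum_nat
    have h2 : ∀ᶠ K' in atTop, ∑' k, e k - η < ∑ k ∈ range K', e k :=
      h1.eventually (lt_mem_nhds (by linarith))
    obtain ⟨K₀, hK₀⟩ := h2.exists
    refine ⟨K₀, fun K => ?_⟩
    rcases le_total K₀ K with hK | hK
    · rw [sum_Ico_eq_sub _ hK]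
      have := hes.sum_le_tsum (range K) (fun k _ => he0 k)
      linarith
    · rw [Ico_eq_empty_of_le hK, sum_empty]
      exact hη.le
  refine ⟨K₀, fun K => ?_⟩
  have h1 : ∀ᶠ x in U, ∑ k ∈ Ico K₀ K, E k x ≤ 2 * η := by
    have := (tendsto_finsetSum (Ico K₀ K) fun k _ => he k).eventually
      (gt_mem_nhds (show ∑ k ∈ Ico K₀ K, e k < 2 * η by linarith [hK₀ K]))
    exact this.mono fun x hx => hx.le
  have h2 : ∀ᶠ x in U, δ / 4 ≤ n x - ∑ k ∈ range K, E k x := by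
    by_contra hcon
    rw [← Ultrafilter.eventually_not] at hcon
    set ε : ℝ := δ / (4 * (K + 1)) with hε
    have hε0 : 0 < ε := by positivity
    have h3 : ∀ k, ∃ t, ∀ᶠ x in U, E k (x - t) ≤ ε := by
      intro k
      obtain ⟨T, hT, hT'⟩ := h.tb k M ε hε0
      have h4 : (⋃ t ∈ T, {x | E k (x - t) ≤ ε}) ∈ U := by
        refine mem_of_superset hUA fun x hx => ?_
        obtain ⟨t, ht, hxt⟩ := hT' x (hM x hx)
        exact Set.mem_biUnion ht hxt
      obtain ⟨t, _, ht⟩ := (Ultrafilter.finite_biUnion_mem_iff hT).mp h4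
      exact ⟨t, ht⟩
    choose t ht using h3
    have h5 : ∀ᶠ x in U, ∀ k ∈ range K, E k (x - t k) ≤ ε :=
      (eventually_all_finset _).mpr fun k _ => ht k
    obtain ⟨x, ⟨⟨hx1, hx2⟩, hx3⟩, y, ⟨⟨hy1, hy2⟩, hy3⟩, hxy⟩ :=
      htwo _ ((hcon.and h5).and (show ∀ᶠ x in U, x ∈ A from hUA))
    have h6 := hsep x hx3 y hy3 hxy
    have h7 := h.tail_sub K x y
    have h8 : ∑ k ∈ range K, E k (x - y) ≤ K * (2 * ε) := by
      have : ∀ k ∈ range K, E k (x - y) ≤ 2 * ε := by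
        intro k hk
        have h9 := h.sub k (x - t k) (y - t k)
        rw [sub_sub_sub_cancel_right] at h9
        linarith [hx2 k hk, hy2 k hk]
      simpa using sum_le_card_nsmul _ _ _ this
    have h9 : (K : ℝ) * (2 * ε) ≤ δ / 2 := by
      rw [hε, mul_div_assoc', mul_div_assoc', div_le_div_iff₀ (by positivity) (by positivity)]
      nlinarith
    push Not at hx1 hy1
    linarith
  obtain ⟨x, ⟨hx1, hx2⟩, hx3⟩ := ((h1.and h2).and (show ∀ᶠ x in U, x ∈ A from hUA)).exists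
  obtain ⟨K', hK1, hK2⟩ := h.tail_small x η hη K
  exact ⟨x, hx3, K', hK1, hx1, hx2, hK2⟩

/-- The gliding hump: an injective sequence in `A` with a lower `ℓ_p` estimate. -/
theorem hump (h : Fam 𝕜 p E n) (A : Set X) (hA : A.Infinite) (M δ : ℝ) (hδ : 0 < δ)
    (hM : ∀ x ∈ A, n x ≤ M) (hsep : ∀ x ∈ A, ∀ y ∈ A, x ≠ y → δ ≤ n (x - y)) :
    ∃ u : ℕ → X, Function.Injective u ∧ (∀ i, u i ∈ A) ∧
      ∀ (F : Finset ℕ) (a : ℕ → 𝕜), δ / 8 * ∑ i ∈ F, ‖a i‖ ^ p ≤ n (∑ i ∈ F, a i • u i) := by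
  classical
  set η : ℝ := δ / 32 with hη
  have hη0 : 0 < η := by positivity
  obtain ⟨K₀, hK₀⟩ := h.step A hA M δ hδ hM hsep η hη0
  choose x hxA nx hnx h1 h2 h3 using hK₀
  set K : ℕ → ℕ := fun i => nx^[i] K₀ with hK
  have hK0 : K 0 = K₀ := rfl
  have hKs : ∀ i, K (i + 1) = nx (K i) := fun i => Function.iterate_succ_apply' nx i K₀
  have hKm : StrictMono K := strictMono_nat_of_lt_succ fun i => by rw [hKs]; exact hnx _
  set u : ℕ → X := fun i => x (K i) with hu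
  have hmono : ∀ (z : X) (a b : ℕ), a ≤ b → ∑ k ∈ range a, E k z ≤ ∑ k ∈ range b, E k z :=
    fun z a b hab => sum_le_sum_of_subset_of_nonneg (range_mono hab) fun k _ _ => h.nonneg k z
  have hlt : ∀ i j, i < j → u i ≠ u j := by
    intro i j hij hne
    have e1 := h3 (K i)
    have e2 := h2 (K j)
    have e3 := hmono (u j) _ _ (hKm.monotone (show i + 1 ≤ j from hij))
    rw [← hKs] at e1
    change n (u i) - ∑ k ∈ range (K (i + 1)), E k (u i) ≤ η at e1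
    change δ / 4 ≤ n (u j) - ∑ k ∈ range (K j), E k (u j) at e2
    rw [hne] at e1
    linarith
  refine ⟨u, fun i j hij => ?_, fun i => hxA _, fun F a => ?_⟩
  · rcases lt_trichotomy i j with hl | hl | hl
    · exact absurd hij (hlt i j hl)
    · exact hl
    · exact absurd hij.symm (hlt j i hl)
  set B : ℕ → Finset ℕ := fun i => Ico (K i) (K (i + 1)) with hB
  have hdisj : (F : Set ℕ).PairwiseDisjoint B := by
    intro i _ j _ hij
    rw [Function.onFun, disjoint_left]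
    intro k hki hkj
    simp only [hB, mem_Ico] at hki hkj
    rcases lt_or_gt_of_ne hij with hl | hl
    · have := hKm.monotone (show i + 1 ≤ j from hl)
      omega
    · have := hKm.monotone (show j + 1 ≤ i from hl)
      omega
  set z := ∑ i ∈ F, a i • u i with hz
  have hblk : ∀ i, δ / 4 - η ≤ ∑ k ∈ B i, E k (u i) := by
    intro i
    have e1 := h3 (K i)
    have e2 := h2 (K i)
    rw [← hKs] at e1
    simp only [hB]
    rw [sum_Ico_eq_sub _ (hKm.monotone (Nat.le_succ i))]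
    simp only [hu]
    linarith
  have hall : ∀ j, ∑ i ∈ F, ∑ k ∈ B i, E k (u j) ≤ ∑ k ∈ B j, E k (u j) + 3 * η := by
    intro j
    rw [← sum_biUnion hdisj]
    have e0 : ∑ k ∈ F.biUnion B, E k (u j) + ∑ k ∈ range K₀, E k (u j) ≤ n (u j) := by
      rw [← sum_union]
      · exact h.block_le _ _
      · rw [disjoint_left]
        intro k hk hk'
        obtain ⟨i, _, hi⟩ := mem_biUnion.mp hk
        simp only [hB, mem_Ico] at hi
        have := hKm.monotone (Nat.zero_le i)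
        rw [mem_range] at hk'
        omega
    have e1 := h3 (K j)
    have e2 := h1 (K j)
    rw [← hKs] at e1
    rw [sum_Ico_eq_sub _ (hK0 ▸ hKm.monotone (Nat.zero_le j))] at e2
    simp only [hB]
    rw [sum_Ico_eq_sub _ (hKm.monotone (Nat.le_succ j))]
    simp only [hu] at e0 ⊢
    linarith
  have hpt : ∀ i ∈ F, ∀ k, 2 * (‖a i‖ ^ p * E k (u i)) ≤ E k z + ∑ j ∈ F, ‖a j‖ ^ p * E k (u j) := by
    intro i hi k
    have e1 : a i • u i = z - ∑ j ∈ F.erase i, a j • u j := by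
      rw [hz, ← add_sum_erase F _ hi, add_sub_cancel_right]
    have e2 := h.sub k z (∑ j ∈ F.erase i, a j • u j)
    rw [← e1, h.smul] at e2
    have e3 := h.sum_le k (F.erase i) (fun j => a j • u j)
    simp only [h.smul] at e3
    rw [← add_sum_erase F _ hi]
    linarith
  have hsum : 2 * ∑ i ∈ F, ‖a i‖ ^ p * ∑ k ∈ B i, E k (u i)
      ≤ ∑ i ∈ F, ∑ k ∈ B i, E k z + ∑ j ∈ F, ‖a j‖ ^ p * ∑ i ∈ F, ∑ k ∈ B i, E k (u j) := by
    have e1 : ∑ j ∈ F, ‖a j‖ ^ p * ∑ i ∈ F, ∑ k ∈ B i, E k (u j)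
        = ∑ i ∈ F, ∑ k ∈ B i, ∑ j ∈ F, ‖a j‖ ^ p * E k (u j) := by
      simp only [mul_sum]
      rw [sum_comm]
      exact sum_congr rfl fun i _ => sum_comm
    rw [e1, ← sum_add_distrib, mul_sum]
    refine sum_le_sum fun i hi => ?_
    rw [← sum_add_distrib, mul_sum, mul_sum]
    exact sum_le_sum fun k _ => hpt i hi k
  have hz1 : ∑ i ∈ F, ∑ k ∈ B i, E k z ≤ n z := by
    rw [← sum_biUnion hdisj]
    exact h.block_le _ _
  have hpos : ∀ i, 0 ≤ ‖a i‖ ^ p := fun i => Real.rpow_nonneg (norm_nonneg _) _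
  have e4 : ∑ j ∈ F, ‖a j‖ ^ p * ∑ i ∈ F, ∑ k ∈ B i, E k (u j)
      ≤ ∑ j ∈ F, ‖a j‖ ^ p * ∑ k ∈ B j, E k (u j) + 3 * η * ∑ j ∈ F, ‖a j‖ ^ p := by
    rw [mul_sum, ← sum_add_distrib]
    refine sum_le_sum fun j _ => ?_
    have := mul_le_mul_of_nonneg_left (hall j) (hpos j)
    linarith
  have e5 : (δ / 4 - η) * ∑ j ∈ F, ‖a j‖ ^ p ≤ ∑ j ∈ F, ‖a j‖ ^ p * ∑ k ∈ B j, E k (u j) := by
    rw [mul_sum]
    refine sum_le_sum fun j _ => ?_
    have := mul_le_mul_of_nonneg_left (hblk j) (hpos j)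
    linarith
  have e6 : δ / 8 * ∑ j ∈ F, ‖a j‖ ^ p
      = (δ / 4 - η) * ∑ j ∈ F, ‖a j‖ ^ p - 3 * η * ∑ j ∈ F, ‖a j‖ ^ p := by
    rw [hη]; ring
  linarith

end Fam

end Pool.Agent.Lib.MP_86e52e_an
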