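import Mathlib

/-! Dyadically periodic sequences with the `p`-th power mean, and distances to the subspaces of
sequences of a fixed period. -/

set_option autoImplicit false

open Finset Filter Topology

namespace Pool.Agent.Lib.MP_86e52e_an

variable (𝕜 : Type) [RCLike 𝕜]

/-- Sequences with period a power of two. -/
def Per : Submodule 𝕜 (ℕ → 𝕜) where
  carrier := {f | ∃ k : ℕ, Function.Periodic f (2 ^ k)}
  zero_mem' := ⟨0, fun _ => rfl⟩
  add_mem' := by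
    rintro f g ⟨k, hk⟩ ⟨l, hl⟩
    refine ⟨k + l, Function.Periodic.add ?_ ?_⟩
    · simpa [pow_add, mul_comm] using hk.nat_mul (2 ^ l)
    · simpa [pow_add] using hl.nat_mul (2 ^ k)
  smul_mem' := by
    rintro c f ⟨k, hk⟩
    exact ⟨k, fun n => by simp [hk n]⟩

/-- The space of such sequences; the exponent is a parameter of the type. -/
def V (_p : ℝ) : Type := ↥(Per 𝕜)

variable (p : ℝ)

noncomputable instance : AddCommGroup (V 𝕜 p) := inferInstanceAs (AddCommGroup ↥(Per 𝕜))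
noncomputable instance : Module 𝕜 (V 𝕜 p) := inferInstanceAs (Module 𝕜 ↥(Per 𝕜))

variable {𝕜 p}

/-- The underlying sequence. -/
def val : V 𝕜 p →ₗ[𝕜] (ℕ → 𝕜) := (Per 𝕜).subtype

theorem val_inj : Function.Injective (val : V 𝕜 p →ₗ[𝕜] (ℕ → 𝕜)) := Subtype.val_injective

omit [RCLike 𝕜] in
theorem per_mono {f : ℕ → 𝕜} {k m : ℕ} (h : Function.Periodic f (2 ^ k)) (hkm : k ≤ m) :
    Function.Periodic f (2 ^ m) := by
  obtain ⟨d, rfl⟩ := Nat.exists_eq_add_of_le hkm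
  simpa [pow_add, mul_comm] using h.nat_mul (2 ^ d)

theorem exists_per (f : V 𝕜 p) : ∃ k : ℕ, Function.Periodic (val f) (2 ^ k) := f.2

/-- Mean of the `p`-th powers over the first `2 ^ m` terms. -/
noncomputable def avg (p : ℝ) (m : ℕ) (f : ℕ → 𝕜) : ℝ :=
  (∑ n ∈ range (2 ^ m), ‖f n‖ ^ p) / 2 ^ m

theorem avg_eq {f : ℕ → 𝕜} {k m : ℕ} (h : Function.Periodic f (2 ^ k)) (hkm : k ≤ m) :
    avg p m f = avg p k f := by
  induction m, hkm using Nat.le_induction with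
  | base => rfl
  | succ m hkm ih =>
    rw [← ih]
    have h1 := per_mono h hkm
    unfold avg
    rw [pow_succ, mul_two, sum_range_add]
    have : ∀ x ∈ range (2 ^ m), ‖f (2 ^ m + x)‖ ^ p = ‖f x‖ ^ p := by
      intro x _
      rw [add_comm, h1 x]
    rw [sum_congr rfl this, pow_succ]
    field_simp
    ring

open Classical in
/-- The mean of the `p`-th powers. -/
noncomputable def N (f : V 𝕜 p) : ℝ := avg p (Nat.find (exists_per f)) (val f)

theorem N_eq {f : V 𝕜 p} {m : ℕ} (h : Function.Periodic (val f) (2 ^ m)) :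
    N f = avg p m (val f) := by
  classical
  exact (avg_eq (Nat.find_spec (exists_per f)) (Nat.find_min' _ h)).symm

theorem N_nonneg (f : V 𝕜 p) : 0 ≤ N f := by
  unfold N avg
  positivity

theorem N_smul (c : 𝕜) (f : V 𝕜 p) : N (c • f) = ‖c‖ ^ p * N f := by
  obtain ⟨k, hk⟩ := exists_per f
  have h1 : Function.Periodic (val (c • f)) (2 ^ k) := fun n => by simp [hk n]
  rw [N_eq hk, N_eq h1]
  unfold avg
  rw [← mul_div_assoc, mul_sum]
  congr 1
  refine sum_congr rfl fun n _ => ?_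
  simp [Real.mul_rpow]

theorem N_add (hp0 : 0 < p) (hp1 : p ≤ 1) (f g : V 𝕜 p) : N (f + g) ≤ N f + N g := by
  obtain ⟨k, hk⟩ := exists_per f
  obtain ⟨l, hl⟩ := exists_per g
  have h1 := per_mono hk (Nat.le_add_right k l)
  have h2 := per_mono hl (Nat.le_add_left l k)
  have h3 : Function.Periodic (val (f + g)) (2 ^ (k + l)) := by
    rw [map_add]; exact h1.add h2
  rw [N_eq h1, N_eq h2, N_eq h3]
  unfold avg
  rw [← add_div, ← sum_add_distrib]
  refine div_le_div_of_nonneg_right (sum_le_sum fun n _ => ?_) (by positivity)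
  rw [map_add, Pi.add_apply]
  exact (Real.rpow_le_rpow (norm_nonneg _) (norm_add_le _ _) hp0.le).trans
    (Real.rpow_add_le_add_rpow (norm_nonneg _) (norm_nonneg _) hp0.le hp1)

theorem N_zero (hp0 : 0 < p) : N (0 : V 𝕜 p) = 0 := by
  have := N_smul (0 : 𝕜) (0 : V 𝕜 p)
  simpa [Real.zero_rpow hp0.ne'] using this

theorem N_le_of_bound {f : V 𝕜 p} (hp0 : 0 < p) {ε : ℝ} (h : ∀ n, ‖val f n‖ ≤ ε) :
    N f ≤ ε ^ p := by
  unfold N avg
  rw [div_le_iff₀ (by positivity)]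
  refine (sum_le_card_nsmul _ _ (ε ^ p) fun n _ =>
    Real.rpow_le_rpow (norm_nonneg _) (h n) hp0.le).trans (le_of_eq ?_)
  simp [mul_comm]

/-- The chain of subspaces: zero, then the sequences of period `2 ^ k`. -/
noncomputable def S (𝕜 : Type) [RCLike 𝕜] (p : ℝ) : ℕ → Submodule 𝕜 (V 𝕜 p)
  | 0 => ⊥
  | k + 1 =>
    { carrier := {f | Function.Periodic (val f) (2 ^ k)}
      zero_mem' := fun _ => rfl
      add_mem' := fun {f g} hf hg => by
        change Function.Periodic (val (f + g)) (2 ^ k)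
        rw [map_add]; exact Function.Periodic.add hf hg
      smul_mem' := fun c f hf n => by
        have := hf n
        simp [this] }

theorem mem_S_succ {k : ℕ} {f : V 𝕜 p} : f ∈ S 𝕜 p (k + 1) ↔ Function.Periodic (val f) (2 ^ k) :=
  Iff.rfl

theorem S_mono : Monotone (S 𝕜 p) := by
  refine monotone_nat_of_le_succ fun k => ?_
  cases k with
  | zero => exact bot_le
  | succ k => exact fun f hf => per_mono hf (Nat.le_succ k)

/-- Distance to the `k`-th subspace. -/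
noncomputable def E (k : ℕ) (f : V 𝕜 p) : ℝ := ⨅ g : S 𝕜 p k, N (f - g.1)

theorem E_nonneg (k : ℕ) (f : V 𝕜 p) : 0 ≤ E k f := Real.iInf_nonneg fun _ => N_nonneg _

theorem E_le (k : ℕ) (f : V 𝕜 p) {g : V 𝕜 p} (hg : g ∈ S 𝕜 p k) : E k f ≤ N (f - g) :=
  ciInf_le (f := fun g : S 𝕜 p k => N (f - g.1))
    ⟨0, by rintro _ ⟨g, rfl⟩; exact N_nonneg _⟩ ⟨g, hg⟩

theorem E_approx (k : ℕ) (f : V 𝕜 p) {ε : ℝ} (hε : 0 < ε) :
    ∃ g ∈ S 𝕜 p k, N (f - g) < E k f + ε := by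
  obtain ⟨g, hg⟩ := exists_lt_of_ciInf_lt (f := fun g : S 𝕜 p k => N (f - g.1))
    (show E k f < E k f + ε by linarith)
  exact ⟨g, g.2, hg⟩

theorem E_le_N (k : ℕ) (f : V 𝕜 p) : E k f ≤ N f := by
  simpa using E_le k f (S 𝕜 p k).zero_mem

theorem E_zero_eq (f : V 𝕜 p) : E 0 f = N f := by
  refine le_antisymm (E_le_N 0 f) (le_ciInf fun g => ?_)
  have : (g : V 𝕜 p) = 0 := (Submodule.mem_bot 𝕜).mp g.2
  rw [this, sub_zero]

theorem E_anti (f : V 𝕜 p) {k l : ℕ} (h : k ≤ l) : E l f ≤ E k f :=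
  le_ciInf fun g => E_le l f (S_mono h g.2)

theorem E_of_mem (hp0 : 0 < p) {k : ℕ} {f : V 𝕜 p} (h : f ∈ S 𝕜 p k) : E k f = 0 := by
  refine le_antisymm ?_ (E_nonneg k f)
  simpa [N_zero hp0] using E_le k f h

theorem E_add (hp0 : 0 < p) (hp1 : p ≤ 1) (k : ℕ) (f g : V 𝕜 p) :
    E k (f + g) ≤ E k f + E k g := by
  refine le_of_forall_pos_le_add fun ε hε => ?_
  obtain ⟨f', hf', h1⟩ := E_approx k f (half_pos hε)
  obtain ⟨g', hg', h2⟩ := E_approx k g (half_pos hε)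
  have h3 := E_le k (f + g) ((S 𝕜 p k).add_mem hf' hg')
  have h4 := N_add hp0 hp1 (f - f') (g - g')
  rw [show f - f' + (g - g') = f + g - (f' + g') by abel] at h4
  linarith

theorem E_smul_le (k : ℕ) (c : 𝕜) (f : V 𝕜 p) : E k (c • f) ≤ ‖c‖ ^ p * E k f := by
  unfold E
  rw [Real.mul_iInf_of_nonneg (by positivity)]
  refine le_ciInf fun g => ?_
  rw [← N_smul, smul_sub]
  exact E_le k _ ((S 𝕜 p k).smul_mem c g.2)

theorem E_smul (hp0 : 0 < p) (k : ℕ) (c : 𝕜) (f : V 𝕜 p) : E k (c • f) = ‖c‖ ^ p * E k f := by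
  refine le_antisymm (E_smul_le k c f) ?_
  by_cases hc : c = 0
  · simp [hc, Real.zero_rpow hp0.ne', E_nonneg]
  have h1 := E_smul_le k c⁻¹ (c • f)
  rw [inv_smul_smul₀ hc, norm_inv, Real.inv_rpow (norm_nonneg _)] at h1
  have h2 : 0 < ‖c‖ ^ p := Real.rpow_pos_of_pos (norm_pos_iff.mpr hc) _
  rwa [← div_eq_inv_mul, le_div_iff₀' h2] at h1

theorem exists_mem_S (f : V 𝕜 p) : ∃ k, f ∈ S 𝕜 p k := by
  obtain ⟨k, hk⟩ := exists_per f
  exact ⟨k + 1, hk⟩

theorem E_hasSum (hp0 : 0 < p) {K : ℕ} {f : V 𝕜 p} (h : f ∈ S 𝕜 p K) :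
    HasSum (fun k => E k f) (∑ k ∈ range K, E k f) :=
  hasSum_sum_of_ne_finset_zero fun k hk =>
    E_of_mem hp0 (S_mono (by simpa using hk) h)

theorem E_summable (hp0 : 0 < p) (f : V 𝕜 p) : Summable (fun k => E k f) := by
  obtain ⟨K, hK⟩ := exists_mem_S f
  exact (E_hasSum hp0 hK).summable

/-- Bounded subsets of the `k`-th subspace are totally bounded. -/
theorem S_tb (hp0 : 0 < p) (k : ℕ) (M ε : ℝ) (hε : 0 < ε) :
    ∃ T : Set (V 𝕜 p), T.Finite ∧ ∀ g ∈ S 𝕜 p (k + 1), N g ≤ M → ∃ t ∈ T, N (g - t) ≤ ε := by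
  have h2 : 0 < 2 ^ k := by positivity
  set R : ℝ := (|M| * 2 ^ k) ^ p⁻¹ with hR
  have hε' : 0 < ε ^ p⁻¹ := Real.rpow_pos_of_pos hε _
  obtain ⟨T, hT, hT'⟩ := Metric.totallyBounded_iff.mp
    (isCompact_closedBall (0 : Fin (2 ^ k) → 𝕜) R).totallyBounded _ hε'
  let Φ : (Fin (2 ^ k) → 𝕜) → V 𝕜 p := fun a =>
    (⟨fun n => a ⟨n % 2 ^ k, Nat.mod_lt _ h2⟩, k, fun n => by simp⟩ : ↥(Per 𝕜))
  refine ⟨Φ '' T, hT.image Φ, fun g hg hgM => ?_⟩
  have hg' : Function.Periodic (val g) (2 ^ k) := hg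
  have h3 : (fun i : Fin (2 ^ k) => val g i) ∈ Metric.closedBall (0 : Fin (2 ^ k) → 𝕜) R := by
    rw [mem_closedBall_zero_iff, pi_norm_le_iff_of_nonneg (by positivity)]
    intro i
    rw [hR, Real.le_rpow_inv_iff_of_pos (norm_nonneg _) (by positivity) hp0]
    rw [N_eq hg', avg, div_le_iff₀ (by positivity)] at hgM
    have h4 : ‖val g i‖ ^ p ≤ ∑ n ∈ range (2 ^ k), ‖val g n‖ ^ p :=
      single_le_sum (f := fun n => ‖val g n‖ ^ p) (fun n _ => by positivity)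
        (mem_range.mpr i.2)
    have h5 : M * 2 ^ k ≤ |M| * 2 ^ k := mul_le_mul_of_nonneg_right (le_abs_self M) (by positivity)
    linarith
  obtain ⟨a, ha, hga⟩ := Set.mem_iUnion₂.mp (hT' h3)
  refine ⟨Φ a, Set.mem_image_of_mem Φ ha, ?_⟩
  refine (N_le_of_bound hp0 (ε := ε ^ p⁻¹) fun n => ?_).trans
    (Real.rpow_inv_rpow hε.le hp0.ne').le
  rw [mem_ball_iff_norm] at hga
  have h6 := (norm_le_pi_norm _ ⟨n % 2 ^ k, Nat.mod_lt _ h2⟩).trans hga.le
  rw [map_sub, Pi.sub_apply, ← hg'.map_mod_nat n]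
  exact h6

/-- The indicator of a residue class modulo `2 ^ m`. -/
noncomputable def atom (𝕜 : Type) [RCLike 𝕜] (p : ℝ) (m r : ℕ) : V 𝕜 p :=
  (⟨fun n => if n % 2 ^ m = r then 1 else 0, m, fun n => by simp⟩ : ↥(Per 𝕜))

theorem val_atom (m r n : ℕ) : val (atom 𝕜 p m r) n = if n % 2 ^ m = r then 1 else 0 := rfl

theorem atom_mem (m r : ℕ) : atom 𝕜 p m r ∈ S 𝕜 p (m + 1) := fun n => by simp [val_atom]

theorem N_atom (hp0 : 0 < p) (m r : ℕ) (hr : r < 2 ^ m) : N (atom 𝕜 p m r) = 1 / 2 ^ m := by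
  rw [N_eq (atom_mem m r), avg]
  congr 1
  rw [sum_eq_single r]
  · simp [val_atom, Nat.mod_eq_of_lt hr]
  · intro n hn hne
    simp [val_atom, Nat.mod_eq_of_lt (mem_range.mp hn), hne, Real.zero_rpow hp0.ne']
  · intro h
    exact absurd (mem_range.mpr hr) h

theorem eq_sum_atom {m : ℕ} {f : V 𝕜 p} (h : Function.Periodic (val f) (2 ^ m)) :
    f = ∑ r ∈ range (2 ^ m), val f r • atom 𝕜 p m r := by
  apply val_inj
  funext n
  rw [map_sum, Finset.sum_apply, sum_eq_single (n % 2 ^ m)]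
  · simp [val_atom, h.map_mod_nat n]
  · intro r _ hne
    simp [val_atom, hne.symm]
  · intro h
    exact absurd (mem_range.mpr (Nat.mod_lt _ (by positivity))) h

theorem val_bdd (f : V 𝕜 p) : ∃ C : ℝ, ∀ n, ‖val f n‖ ≤ C := by
  obtain ⟨k, hk⟩ := exists_per f
  refine ⟨∑ r ∈ range (2 ^ k), ‖val f r‖, fun n => ?_⟩
  rw [← hk.map_mod_nat n]
  exact single_le_sum (f := fun r => ‖val f r‖) (fun _ _ => norm_nonneg _)
    (mem_range.mpr (Nat.mod_lt _ (by positivity)))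

end Pool.Agent.Lib.MP_86e52e_an
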