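import Mathlib
import Pool.Agent.Lib.MP_86e52e_an.Model
import Pool.Agent.Lib.MP_86e52e_an.Hump

/-! The completion of the periodic sequences for the sum of the distances. -/

set_option autoImplicit false

open Finset Filter Topology UniformSpace

namespace Pool.Agent.Lib.MP_86e52e_an

variable {𝕜 : Type} [RCLike 𝕜] {p : ℝ} [hp0 : Fact (0 < p)] [hp1 : Fact (p ≤ 1)]

/-- The `p`-th power of the quasi-norm, as a group seminorm. -/
noncomputable def vnorm (𝕜 : Type) [RCLike 𝕜] (p : ℝ) [hp0 : Fact (0 < p)] [hp1 : Fact (p ≤ 1)] :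
    AddGroupSeminorm (V 𝕜 p) where
  toFun f := ∑' k, E k f
  map_zero' := by simp [E_of_mem hp0.out (Submodule.zero_mem _)]
  add_le' f g := by
    rw [← (E_summable hp0.out f).tsum_add (E_summable hp0.out g)]
    exact (E_summable hp0.out _).tsum_le_tsum (fun k => E_add hp0.out hp1.out k f g)
      ((E_summable hp0.out f).add (E_summable hp0.out g))
  neg' f := by
    refine tsum_congr fun k => ?_
    simpa using E_smul hp0.out k (-1 : 𝕜) f

noncomputable instance : SeminormedAddCommGroup (V 𝕜 p) := (vnorm 𝕜 p).toSeminormedAddCommGroup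

theorem norm_def (f : V 𝕜 p) : ‖f‖ = ∑' k, E k f := rfl

theorem norm_smul_V (c : 𝕜) (f : V 𝕜 p) : ‖c • f‖ = ‖c‖ ^ p * ‖f‖ := by
  rw [norm_def, norm_def, ← tsum_mul_left]
  exact tsum_congr fun k => E_smul hp0.out k c f

theorem sum_E_le (B : Finset ℕ) (f : V 𝕜 p) : ∑ k ∈ B, E k f ≤ ‖f‖ :=
  (E_summable hp0.out f).sum_le_tsum B fun k _ => E_nonneg k f

theorem E_le_norm (k : ℕ) (f : V 𝕜 p) : E k f ≤ ‖f‖ := by
  simpa using sum_E_le {k} f

theorem E_lip (k : ℕ) : LipschitzWith 1 (E k : V 𝕜 p → ℝ) := by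
  refine LipschitzWith.of_le_add fun f g => ?_
  have h1 := E_add hp0.out hp1.out k g (f - g)
  rw [add_sub_cancel] at h1
  rw [dist_eq_norm]
  linarith [E_le_norm k (f - g)]

instance : UniformContinuousConstSMul 𝕜 (V 𝕜 p) where
  uniformContinuous_const_smul c := by
    refine (LipschitzWith.of_dist_le_mul (K := ⟨‖c‖ ^ p, by positivity⟩) fun f g => ?_).uniformContinuous
    rw [dist_eq_norm, dist_eq_norm, ← smul_sub, norm_smul_V]
    rfl

/-- The space. -/
abbrev XX (𝕜 : Type) [RCLike 𝕜] (p : ℝ) [Fact (0 < p)] [Fact (p ≤ 1)] : Type :=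
  Completion (V 𝕜 p)

/-- The distances, extended to the completion. -/
noncomputable def EE (k : ℕ) : XX 𝕜 p → ℝ := Completion.extension (E k)

theorem EE_coe (k : ℕ) (f : V 𝕜 p) : EE k (f : XX 𝕜 p) = E k f :=
  Completion.extension_coe (E_lip k).uniformContinuous f

theorem EE_cont (k : ℕ) : Continuous (EE k : XX 𝕜 p → ℝ) := Completion.continuous_extension

theorem norm_smul_X (c : 𝕜) (x : XX 𝕜 p) : ‖c • x‖ = ‖c‖ ^ p * ‖x‖ := by
  induction x using Completion.induction_on with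
  | hp => exact isClosed_eq (continuous_const_smul c).norm (continuous_const.mul continuous_norm)
  | ih f => rw [← Completion.coe_smul, Completion.norm_coe, Completion.norm_coe, norm_smul_V]

theorem EE_nonneg (k : ℕ) (x : XX 𝕜 p) : 0 ≤ EE k x := by
  induction x using Completion.induction_on with
  | hp => exact isClosed_le continuous_const (EE_cont k)
  | ih f => rw [EE_coe]; exact E_nonneg k f

theorem EE_add (k : ℕ) (x y : XX 𝕜 p) : EE k (x + y) ≤ EE k x + EE k y := by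
  induction x, y using Completion.induction_on₂ with
  | hp =>
    exact isClosed_le ((EE_cont k).comp continuous_add)
      (((EE_cont k).comp continuous_fst).add ((EE_cont k).comp continuous_snd))
  | ih f g =>
    rw [← Completion.coe_add, EE_coe, EE_coe, EE_coe]
    exact E_add hp0.out hp1.out k f g

theorem EE_smul (k : ℕ) (c : 𝕜) (x : XX 𝕜 p) : EE k (c • x) = ‖c‖ ^ p * EE k x := by
  induction x using Completion.induction_on with
  | hp =>
    exact isClosed_eq ((EE_cont k).comp (continuous_const_smul c))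
      (continuous_const.mul (EE_cont k))
  | ih f => rw [← Completion.coe_smul, EE_coe, EE_coe, E_smul hp0.out]

theorem sum_EE_le (B : Finset ℕ) (x : XX 𝕜 p) : ∑ k ∈ B, EE k x ≤ ‖x‖ := by
  induction x using Completion.induction_on with
  | hp => exact isClosed_le (continuous_finsetSum B fun k _ => EE_cont k) continuous_norm
  | ih f =>
    simp only [EE_coe, Completion.norm_coe]
    exact sum_E_le B f

theorem exists_near (x : XX 𝕜 p) {ε : ℝ} (hε : 0 < ε) : ∃ f : V 𝕜 p, ‖x - f‖ < ε := by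
  obtain ⟨f, hf⟩ := Metric.denseRange_iff.mp Completion.denseRange_coe x ε hε
  exact ⟨f, by rwa [dist_eq_norm] at hf⟩

theorem EE_hasSum (x : XX 𝕜 p) : HasSum (fun k => EE k x) ‖x‖ := by
  have hs : Summable fun k => EE k x :=
    summable_of_sum_le (fun k => EE_nonneg k x) (fun B => sum_EE_le B x)
  have h1 : ∑' k, EE k x ≤ ‖x‖ := hs.tsum_le_of_sum_le fun B => sum_EE_le B x
  have h2 : ‖x‖ ≤ ∑' k, EE k x := by
    refine le_of_forall_pos_le_add fun ε hε => ?_
    obtain ⟨f, hf⟩ := exists_near x (half_pos hε)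
    obtain ⟨K, hK⟩ := exists_mem_S f
    have h3 : ‖f‖ = ∑ k ∈ range K, E k f := (E_hasSum hp0.out hK).tsum_eq
    have h4 : ‖x‖ ≤ ‖x - f‖ + ‖f‖ := by
      have := norm_add_le (x - f) (f : XX 𝕜 p)
      rwa [sub_add_cancel, Completion.norm_coe] at this
    have h5 : ∑ k ∈ range K, E k f
        ≤ ∑ k ∈ range K, EE k x + ∑ k ∈ range K, EE k ((f : XX 𝕜 p) - x) := by
      rw [← sum_add_distrib]
      refine sum_le_sum fun k _ => ?_
      have := EE_add k x ((f : XX 𝕜 p) - x)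
      rwa [add_sub_cancel, EE_coe] at this
    have h6 := sum_EE_le (range K) ((f : XX 𝕜 p) - x)
    rw [norm_sub_rev] at h6
    have h7 := hs.sum_le_tsum (range K) fun k _ => EE_nonneg k x
    linarith
  rw [← le_antisymm h1 h2]
  exact hs.hasSum

theorem V_tb (M ε : ℝ) (hε : 0 < ε) :
    ∃ T : Set (V 𝕜 p), T.Finite ∧ ∀ f : V 𝕜 p, ‖f‖ ≤ M → ∃ t ∈ T, N (f - t) ≤ ε := by
  obtain ⟨K, hK⟩ := exists_nat_gt (M / (ε / 3))
  rw [div_lt_iff₀ (by positivity)] at hK
  obtain ⟨T, hT, hT'⟩ := S_tb (𝕜 := 𝕜) hp0.out K (M + ε) (ε / 3) (by positivity)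
  refine ⟨T, hT, fun f hf => ?_⟩
  have h1 : ((K : ℝ) + 1) * E (K + 1) f ≤ M := by
    have h2 := card_nsmul_le_sum (range (K + 1)) (fun k => E k f) (E (K + 1) f)
      (fun k hk => E_anti f (mem_range.mp hk).le)
    rw [card_range, nsmul_eq_mul] at h2
    push_cast at h2
    linarith [sum_E_le (range (K + 1)) f]
  have h3 : E (K + 1) f ≤ ε / 3 := by
    by_contra hcon
    push Not at hcon
    have : (0 : ℝ) ≤ K := Nat.cast_nonneg K
    nlinarith
  obtain ⟨g, hg, h4⟩ := E_approx (K + 1) f (show 0 < ε / 3 by positivity)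
  have h5 : N f ≤ M := by rw [← E_zero_eq]; exact (E_le_norm 0 f).trans hf
  have h6 : N g ≤ M + ε := by
    have h7 := N_add hp0.out hp1.out f ((-1 : 𝕜) • (f - g))
    rw [N_smul] at h7
    simp only [neg_smul, one_smul, neg_sub, add_sub_cancel, norm_neg, norm_one, Real.one_rpow,
      one_mul] at h7
    linarith
  obtain ⟨t, ht, h8⟩ := hT' g hg h6
  refine ⟨t, ht, ?_⟩
  have h9 := N_add hp0.out hp1.out (f - g) (g - t)
  rw [sub_add_sub_cancel] at h9
  linarith

theorem fam : Fam 𝕜 p (EE : ℕ → XX 𝕜 p → ℝ) (fun x => ‖x‖) where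
  nonneg := EE_nonneg
  add := EE_add
  smul := EE_smul
  zero k := by
    rw [← Completion.coe_zero, EE_coe]
    exact E_of_mem hp0.out (Submodule.zero_mem _)
  hasSum := EE_hasSum
  tb k M ε hε := by
    obtain ⟨T, hT, hT'⟩ := V_tb (𝕜 := 𝕜) (p := p) (M + ε / 2) (ε / 2) (half_pos hε)
    refine ⟨(↑) '' T, hT.image _, fun x hx => ?_⟩
    obtain ⟨f, hf⟩ := exists_near x (half_pos hε)
    have h1 : ‖f‖ ≤ M + ε / 2 := by
      have := norm_sub_le x (x - f)
      rw [sub_sub_cancel, Completion.norm_coe] at this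
      linarith
    obtain ⟨t, ht, h2⟩ := hT' f h1
    refine ⟨t, Set.mem_image_of_mem _ ht, ?_⟩
    have h3 := EE_add k (x - (f : XX 𝕜 p)) ((f : XX 𝕜 p) - (t : XX 𝕜 p))
    rw [sub_add_sub_cancel, ← Completion.coe_sub, EE_coe] at h3
    have h4 := sum_EE_le {k} (x - (f : XX 𝕜 p))
    rw [sum_singleton] at h4
    linarith [E_le_N k (f - t)]

theorem norm_atom_le (m r : ℕ) (hr : r < 2 ^ m) : ‖atom 𝕜 p m r‖ ≤ (m + 1) / 2 ^ m := by
  rw [norm_def, (E_hasSum hp0.out (atom_mem m r)).tsum_eq]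
  refine (sum_le_card_nsmul _ _ (1 / 2 ^ m) fun k _ =>
    (E_le_N k _).trans (N_atom hp0.out m r hr).le).trans (le_of_eq ?_)
  rw [card_range, nsmul_eq_mul]
  push_cast
  ring

theorem nontrivial_X : Nontrivial (XX 𝕜 p) := by
  refine ⟨⟨(atom 𝕜 p 0 0 : V 𝕜 p), 0, fun h => ?_⟩⟩
  have h1 := E_le_norm 0 (atom 𝕜 p 0 0)
  rw [E_zero_eq, N_atom hp0.out 0 0 (by norm_num), ← Completion.norm_coe, h, norm_zero] at h1
  norm_num at h1

omit hp0 hp1 in
theorem tendsto_aux (s : ℝ) (hs : 1 < s) :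
    Tendsto (fun m : ℕ => (2 : ℝ) ^ m * (((m : ℝ) + 1) / 2 ^ m) ^ s) atTop (𝓝 0) := by
  obtain ⟨d, hd⟩ := exists_nat_ge s
  set r : ℝ := (2 : ℝ) ^ (1 - s) with hr
  have hr0 : 0 < r := by positivity
  have hr1 : r < 1 := Real.rpow_lt_one_of_one_lt_of_neg (by norm_num) (by linarith)
  have h1 := (tendsto_pow_const_mul_const_pow_of_abs_lt_one d
    (show |r| < 1 by rwa [abs_of_pos hr0])).comp (tendsto_add_atTop_nat 1)
  have h2 := h1.mul_const r⁻¹
  rw [zero_mul] at h2
  refine squeeze_zero (fun m => by positivity) (fun m => ?_) h2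
  simp only [Function.comp]
  push_cast
  have h3 : (2 : ℝ) ^ m * (((m : ℝ) + 1) / 2 ^ m) ^ s = ((m : ℝ) + 1) ^ s * r ^ m := by
    rw [Real.div_rpow (by positivity) (by positivity), hr, ← Real.rpow_natCast,
      ← Real.rpow_natCast, ← Real.rpow_mul (by norm_num), ← Real.rpow_mul (by norm_num),
      sub_mul, one_mul, Real.rpow_sub (by norm_num), mul_comm s]
    ring
  rw [h3, pow_succ r, mul_assoc, mul_assoc, mul_inv_cancel₀ hr0.ne', mul_one]
  refine mul_le_mul_of_nonneg_right ?_ (by positivity)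
  rw [← Real.rpow_natCast]
  exact Real.rpow_le_rpow_of_exponent_le (by linarith [Nat.cast_nonneg (α := ℝ) m]) hd

/-- Every linear functional that is bounded near zero vanishes. -/
theorem dual_trivial (hp : p < 1) (φ : XX 𝕜 p →ₗ[𝕜] 𝕜) (δ : ℝ) (hδ : 0 < δ)
    (h : ∀ x, ‖x‖ ^ (1 / p) < δ → ‖φ x‖ < 1) : φ = 0 := by
  have hp' := hp0.out
  have hq : ∀ (c : 𝕜) (x : XX 𝕜 p), ‖c • x‖ ^ (1 / p) = ‖c‖ * ‖x‖ ^ (1 / p) := by
    intro c x
    rw [norm_smul_X, Real.mul_rpow (by positivity) (norm_nonneg _), one_div,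
      Real.rpow_rpow_inv (norm_nonneg _) hp'.ne']
  have hb : ∀ x, ‖φ x‖ ≤ 2 / δ * ‖x‖ ^ (1 / p) := by
    intro x
    by_cases hx : x = 0
    · rw [hx, map_zero, norm_zero]; positivity
    have h1 : 0 < ‖x‖ ^ (1 / p) := Real.rpow_pos_of_pos (norm_pos_iff.mpr hx) _
    set t : ℝ := δ / 2 / ‖x‖ ^ (1 / p) with ht
    have ht0 : 0 < t := by positivity
    have h2 := h ((t : 𝕜) • x) (by
      rw [hq, RCLike.norm_ofReal, abs_of_pos ht0, ht, div_mul_cancel₀ _ h1.ne']; linarith)
    rw [map_smul, norm_smul, RCLike.norm_ofReal, abs_of_pos ht0, ht, div_mul_eq_mul_div,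
      div_lt_one h1] at h2
    rw [div_mul_eq_mul_div, le_div_iff₀ hδ]
    linarith
  have hV : ∀ f : V 𝕜 p, φ f = 0 := by
    intro f
    obtain ⟨k, hk⟩ := exists_per f
    obtain ⟨C, hC⟩ := val_bdd f
    have hC0 : 0 ≤ C := (norm_nonneg _).trans (hC 0)
    have h1 := (tendsto_aux (1 / p) (by rw [lt_div_iff₀ hp']; linarith)).const_mul (C * (2 / δ))
    rw [mul_zero] at h1
    rw [← norm_le_zero_iff]
    refine ge_of_tendsto h1 ?_
    filter_upwards [eventually_ge_atTop k] with m hm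
    have h2 : (f : XX 𝕜 p) = ∑ r ∈ range (2 ^ m), val f r • (atom 𝕜 p m r : XX 𝕜 p) := by
      have h3 := congrArg (Completion.toCompl : V 𝕜 p →+ XX 𝕜 p) (eq_sum_atom (per_mono hk hm))
      rw [map_sum] at h3
      simp only [← Completion.coe_smul]
      exact h3
    rw [h2, map_sum]
    refine (norm_sum_le _ _).trans ((sum_le_card_nsmul _ _
      (C * (2 / δ * (((m : ℝ) + 1) / 2 ^ m) ^ (1 / p))) fun r hr => ?_).trans (le_of_eq ?_))
    · rw [map_smul, norm_smul]
      refine mul_le_mul (hC r) ((hb _).trans ?_) (norm_nonneg _) hC0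
      refine mul_le_mul_of_nonneg_left ?_ (by positivity)
      refine Real.rpow_le_rpow (norm_nonneg _) ?_ (by positivity)
      rw [Completion.norm_coe]
      exact norm_atom_le m r (mem_range.mp hr)
    · rw [card_range, nsmul_eq_mul]
      push_cast
      ring
  ext x
  rw [LinearMap.zero_apply, ← norm_le_zero_iff]
  refine le_of_forall_pos_le_add fun ε hε => ?_
  obtain ⟨f, hf⟩ := exists_near x (show 0 < (ε * δ / 2) ^ p by positivity)
  have h1 : φ x = φ (x - f) := by rw [map_sub, hV, sub_zero]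
  have h2 : ‖x - f‖ ^ (1 / p) ≤ ε * δ / 2 := by
    refine (Real.rpow_le_rpow (norm_nonneg _) hf.le (by positivity)).trans (le_of_eq ?_)
    rw [one_div, Real.rpow_rpow_inv (by positivity) hp'.ne']
  rw [h1, zero_add]
  refine (hb _).trans ((mul_le_mul_of_nonneg_left h2 (by positivity)).trans (le_of_eq ?_))
  field_simp

end Pool.Agent.Lib.MP_86e52e_an
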